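import Pool.Agent.W811.LW.Stm

set_option autoImplicit false
open Finset Filter Topology
open scoped ENNReal

namespace Pool.Agent.W651.LW

open Pool.Agent.W811.LW

theorem et_nonneg {G : ℝ} (hG : 1 ≤ G) (i : ℤ) : 0 ≤ et G i := by
  unfold et
  split_ifs <;> positivity

theorem et_succ {G : ℝ} (hG : 1 ≤ G) (i : ℤ) : et G (i + 1) ≤ G ^ 3 * et G i := by
  have hG0 : (0 : ℝ) < G := lt_of_lt_of_le one_pos hG
  unfold et
  by_cases h : 0 ≤ i
  · rw [if_pos h, if_pos (by omega), zpow_add₀ hG0.ne', zpow_one, mul_comm]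
    have h1 : G ≤ G ^ 3 := by nlinarith [mul_pos hG0 hG0]
    have h2 : 0 ≤ G ^ i := by positivity
    exact mul_le_mul_of_nonneg_right h1 h2
  · rw [if_neg h]
    by_cases h' : 0 ≤ i + 1
    · have hi : i = -1 := by omega
      subst hi
      have e1 : G ^ 3 * G ^ (3 * (-1) : ℤ) = 1 := by
        have : G ^ (3 * (-1) : ℤ) = (G ^ 3)⁻¹ := by
          rw [show (3 * (-1) : ℤ) = -((3 : ℕ) : ℤ) by norm_num, zpow_neg, zpow_natCast]
        rw [this, mul_inv_cancel₀ (by positivity)]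
      rw [e1]
      simp
    · rw [if_neg h', show 3 * (i + 1) = 3 * i + ((3 : ℕ) : ℤ) by push_cast; ring,
        zpow_add₀ hG0.ne', zpow_natCast, mul_comm]

theorem rs_nonneg (y : ℝ) : 0 ≤ rs y := inv_nonneg.2 (Real.sqrt_nonneg _)

theorem rs_anti {a b : ℝ} (ha : 0 < a) (hab : a ≤ b) : rs b ≤ rs a := by
  unfold rs
  exact inv_anti₀ (Real.sqrt_pos.2 ha) (Real.sqrt_le_sqrt hab)

theorem rs_sq {D : ℝ} (hD : 0 < D) : rs (D ^ 2) = D⁻¹ := by
  unfold rs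
  rw [Real.sqrt_sq hD.le]

theorem rs_le {y z D : ℝ} (hy : 0 < y) (hD : 1 ≤ D) (h : y ≤ 2 * D ^ 2 * z) :
    rs z ≤ 2 * D * rs y := by
  have hD0 : (0 : ℝ) < D := lt_of_lt_of_le one_pos hD
  have h1 : y / (2 * D) ^ 2 ≤ z := by
    rw [div_le_iff₀ (by positivity)]
    have hz : 0 < z := by
      by_contra hz
      push Not at hz
      have : 2 * D ^ 2 * z ≤ 0 := mul_nonpos_of_nonneg_of_nonpos (by positivity) hz
      linarith
    nlinarith [mul_pos (mul_pos hD0 hD0) hz]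
  have h2 := rs_anti (by positivity : 0 < y / (2 * D) ^ 2) h1
  refine h2.trans (le_of_eq ?_)
  unfold rs
  rw [Real.sqrt_div hy.le, Real.sqrt_sq (by positivity), inv_div, div_eq_mul_inv]

theorem sw0 (h : CLW0) (hp : POS) (hd : DWL) (hk : KERN) : SW0 := by
  intro G c0 hG hc0 hc01
  have hGr : (1000 : ℝ) ≤ (G : ℝ) := by exact_mod_cast hG
  have hG1 : (1 : ℝ) ≤ (G : ℝ) := by linarith
  have hG0 : (0 : ℝ) < (G : ℝ) := by linarith
  have hD1 : (1 : ℝ) ≤ (G : ℝ) ^ 4 := one_le_pow₀ hG1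
  have hD0 : (0 : ℝ) < (G : ℝ) ^ 4 := by positivity
  have hD2 : 2 ≤ G ^ 4 := by
    calc 2 ≤ G := by omega
      _ = G ^ 1 := (pow_one G).symm
      _ ≤ G ^ 4 := Nat.pow_le_pow_right (by omega) (by norm_num)
  obtain ⟨M, hM, hK⟩ := hk G (c0 / (1024 * ((G : ℝ) ^ 4) ^ 10)) (128 * ((G : ℝ) ^ 4) ^ 10)
    (16 * ((G : ℝ) ^ 4) ^ 4) (2 * (G : ℝ) ^ 4 * (G : ℝ) ^ 3) hG (by positivity)
    (by
      have := one_le_pow₀ hD1 (n := 10)
      linarith)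
    (by
      have := one_le_pow₀ hD1 (n := 4)
      linarith)
    (by
      have h3 := one_le_pow₀ hG1 (n := 3)
      nlinarith)
  refine ⟨M, hM, ?_⟩
  intro α β j hα _
  have hcast : ((G ^ 4 : ℕ) : ℝ) = (G : ℝ) ^ 4 := by push_cast; rfl
  set Dr : ℝ := (G : ℝ) ^ 4 with hDr
  let y : ℕ → ℝ := fun m => yW Dr α j 0 β m
  let z : ℕ → ℝ := fun m => yV Dr α j 0 β m
  let u : ℕ → ℕ → ℝ := fun d m =>
    et G (((j + 1 : ℕ) : ℤ) - (m : ℤ)) *
      rs (yW Dr α (j + 1) 0 (β + (d : ℝ) / Dr ^ (2 * j + 2)) m)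
  let T : ℕ → ℝ := fun m => (1 / Dr ^ 2) * ∑ d ∈ range ((G ^ 4) ^ 2), u d m
  have hu0 : ∀ d m, 0 ≤ u d m := fun d m => mul_nonneg (et_nonneg hG1 _) (rs_nonneg _)
  have hy0 : ∀ m, 0 < y m := fun m => by
    have := (hp (G ^ 4) α c0 β j 0 m hD2 hc0 hα).2.2.2
    rwa [hcast] at this
  have hz0 : ∀ m, 0 < z m := fun m => by
    have := (hp (G ^ 4) α c0 β j 0 m hD2 hc0 hα).2.2.1
    rwa [hcast] at this
  have hets : ∀ m : ℕ, et G (((j + 1 : ℕ) : ℤ) - (m : ℤ)) ≤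
      (G : ℝ) ^ 3 * et G ((j : ℤ) - (m : ℤ)) := by
    intro m
    have := et_succ hG1 ((j : ℤ) - (m : ℤ))
    rwa [show (j : ℤ) - (m : ℤ) + 1 = ((j + 1 : ℕ) : ℤ) - (m : ℤ) by push_cast; ring] at this
  have hfac : ∀ m, ∑ d ∈ range ((G ^ 4) ^ 2), u d m = et G (((j + 1 : ℕ) : ℤ) - (m : ℤ)) *
      ∑ d ∈ range ((G ^ 4) ^ 2), rs (yW Dr α (j + 1) 0 (β + (d : ℝ) / Dr ^ (2 * j + 2)) m) := by
    intro m
    rw [mul_sum]
  have hcond : ∀ m, T m ≤ (1 / 48) * (et G ((j : ℤ) - (m : ℤ)) * rs (y m)) ∨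
    (T m ≤ (2 * (G : ℝ) ^ 4 * (G : ℝ) ^ 3) * (et G ((j : ℤ) - (m : ℤ)) * rs (y m)) ∧
      ((c0 / (1024 * ((G : ℝ) ^ 4) ^ 10)) ≤
          ((G : ℝ) ^ 4) ^ (-2 * ((j : ℤ) - (m : ℤ))) * (y m) ^ 2 ∨
        ∃ m' : ℕ, ((G : ℝ) ^ 4) ^ (-2 * ((m' : ℤ) - (j : ℤ))) ≤
            (128 * ((G : ℝ) ^ 4) ^ 10) * (y m) ^ 2 ∧
          z m' ≤ (16 * ((G : ℝ) ^ 4) ^ 4) *
            ((G : ℝ) ^ 4) ^ (-2 * ((j : ℤ) - (m : ℤ))) * y m)) := by
    intro m
    obtain ⟨h1, h2⟩ := h (G ^ 4) c0 α β j m hD2 hc0 hα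
    simp only [hcast] at h1 h2
    have he0 := et_nonneg hG1 ((j : ℤ) - (m : ℤ))
    have hr0 := rs_nonneg (y m)
    rcases h2 with h2 | ⟨v, hv, w, hw, hcr, hNv, hNw⟩
    · left
      show (1 / Dr ^ 2) * ∑ d ∈ range ((G ^ 4) ^ 2), u d m ≤ _
      rw [hfac]
      have h3 : ∑ d ∈ range ((G ^ 4) ^ 2),
          rs (yW Dr α (j + 1) 0 (β + (d : ℝ) / Dr ^ (2 * j + 2)) m) ≤
          Dr ^ 2 * (16 * Dr⁻¹ * rs (y m)) := by
        rw [← rs_sq hD0]; exact h2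
      have hsum0 : 0 ≤ ∑ d ∈ range ((G ^ 4) ^ 2),
          rs (yW Dr α (j + 1) 0 (β + (d : ℝ) / Dr ^ (2 * j + 2)) m) :=
        sum_nonneg fun _ _ => rs_nonneg _
      calc (1 / Dr ^ 2) * (et G (((j + 1 : ℕ) : ℤ) - (m : ℤ)) *
            ∑ d ∈ range ((G ^ 4) ^ 2),
              rs (yW Dr α (j + 1) 0 (β + (d : ℝ) / Dr ^ (2 * j + 2)) m))
          ≤ (1 / Dr ^ 2) * (((G : ℝ) ^ 3 * et G ((j : ℤ) - (m : ℤ))) *
            (Dr ^ 2 * (16 * Dr⁻¹ * rs (y m)))) := by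
            refine mul_le_mul_of_nonneg_left ?_ (by positivity)
            exact mul_le_mul (hets m) h3 hsum0 (mul_nonneg (by positivity) he0)
        _ = (16 * ((G : ℝ) ^ 3 * Dr⁻¹)) * (et G ((j : ℤ) - (m : ℤ)) * rs (y m)) := by
            field_simp
        _ = (16 * (G : ℝ)⁻¹) * (et G ((j : ℤ) - (m : ℤ)) * rs (y m)) := by
            have : (G : ℝ) ^ 3 * Dr⁻¹ = (G : ℝ)⁻¹ := by
              rw [hDr]; field_simp
            rw [this]
        _ ≤ (1 / 48) * (et G ((j : ℤ) - (m : ℤ)) * rs (y m)) := by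
            refine mul_le_mul_of_nonneg_right ?_ (mul_nonneg he0 hr0)
            rw [← div_eq_mul_inv, div_le_div_iff₀ hG0 (by norm_num)]
            linarith
    · right
      constructor
      · show (1 / Dr ^ 2) * ∑ d ∈ range ((G ^ 4) ^ 2), u d m ≤ _
        have hle : ∀ d ∈ range ((G ^ 4) ^ 2), u d m ≤
            (2 * (G : ℝ) ^ 4 * (G : ℝ) ^ 3) * (et G ((j : ℤ) - (m : ℤ)) * rs (y m)) := by
          intro d hd'
          have h4 := (h1 d (mem_range.1 hd')).2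
          have h5 : rs (yW Dr α (j + 1) 0 (β + (d : ℝ) / Dr ^ (2 * j + 2)) m) ≤
              2 * Dr * rs (y m) := rs_le (hy0 m) hD1 h4
          calc u d m ≤ ((G : ℝ) ^ 3 * et G ((j : ℤ) - (m : ℤ))) * (2 * Dr * rs (y m)) :=
                mul_le_mul (hets m) h5 (rs_nonneg _) (mul_nonneg (by positivity) he0)
            _ = _ := by rw [hDr]; ring
        have hs := sum_le_card_nsmul (range ((G ^ 4) ^ 2)) (fun d => u d m) _ hle
        rw [card_range, nsmul_eq_mul] at hs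
        have hc2 : (((G ^ 4) ^ 2 : ℕ) : ℝ) = Dr ^ 2 := by rw [Nat.cast_pow, hcast]
        rw [hc2] at hs
        calc (1 / Dr ^ 2) * ∑ d ∈ range ((G ^ 4) ^ 2), u d m
            ≤ (1 / Dr ^ 2) * (Dr ^ 2 * ((2 * (G : ℝ) ^ 4 * (G : ℝ) ^ 3) *
              (et G ((j : ℤ) - (m : ℤ)) * rs (y m)))) :=
              mul_le_mul_of_nonneg_left hs (by positivity)
          _ = _ := by field_simp
      · have hpow : ∀ a b : ℕ, Dr ^ (2 * a) / Dr ^ (2 * b) =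
            Dr ^ (-2 * ((b : ℤ) - (a : ℤ))) := by
          intro a b
          rw [show -2 * ((b : ℤ) - (a : ℤ)) = ((2 * a : ℕ) : ℤ) - ((2 * b : ℕ) : ℤ) by
            push_cast; ring, zpow_sub₀ hD0.ne', zpow_natCast, zpow_natCast]
        have h6 := hd (G ^ 4) c0 α β j 0 m (y m) v w hD2 hc0 hc01 (hy0 m)
          (by rw [hcast]; exact hv) (by rw [hcast]; exact hw) hcr
          (by rw [hcast]; exact hNv) (by rw [hcast]; exact hNw)
        simp only [hcast] at h6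
        rcases h6 with h6 | ⟨m', h7, h8⟩
        · left
          rw [hpow] at h6
          exact h6
        · right
          refine ⟨m', ?_, ?_⟩
          · rw [hpow] at h7
            exact h7
          · rw [hpow] at h8
            exact h8
  have hmain := hK (fun m => (j : ℤ) - (m : ℤ)) (fun m => (m : ℤ) - (j : ℤ)) y z T
    (fun a b hab => by
      have : (j : ℤ) - (a : ℤ) = (j : ℤ) - (b : ℤ) := hab
      omega) hy0 hz0 hcond
  have hsumeq : ∑ d ∈ range ((G ^ 4) ^ 2), FW G α (j + 1) 0 (β + (d : ℝ) / Dr ^ (2 * j + 2)) =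
      (((G ^ 4) ^ 2 : ℕ) : ℝ≥0∞) * ∑' m, ENNReal.ofReal (T m) := by
    have e1' : ∑ d ∈ range ((G ^ 4) ^ 2), FW G α (j + 1) 0 (β + (d : ℝ) / Dr ^ (2 * j + 2)) =
        ∑ d ∈ range ((G ^ 4) ^ 2), ∑' m, ENNReal.ofReal (u d m) := by
      refine sum_congr rfl fun d _ => ?_
      rfl
    rw [e1', ← Summable.tsum_finsetSum (fun _ _ => ENNReal.summable), ← ENNReal.tsum_mul_left]
    refine tsum_congr fun m => ?_
    rw [← ENNReal.ofReal_sum_of_nonneg (fun d _ => hu0 d m)]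
    have hc2 : (((G ^ 4) ^ 2 : ℕ) : ℝ≥0∞) = ENNReal.ofReal (Dr ^ 2) := by
      rw [← ENNReal.ofReal_natCast, Nat.cast_pow, hcast]
    rw [hc2, ← ENNReal.ofReal_mul (by positivity)]
    congr 1
    show _ = Dr ^ 2 * ((1 / Dr ^ 2) * ∑ d ∈ range ((G ^ 4) ^ 2), u d m)
    field_simp
  rw [hsumeq]
  refine mul_le_mul_right ?_ _
  refine hmain.trans (le_of_eq ?_)
  have e2 : FW G α j 0 β = ∑' m : ℕ, ENNReal.ofReal (et G ((j : ℤ) - (m : ℤ)) * rs (y m)) := rfl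
  have e3 : FV G α j 0 β = ∑' m : ℕ, ENNReal.ofReal (et G ((m : ℤ) - (j : ℤ)) * rs (z m)) := rfl
  rw [e2, e3]
  congr 1
  exact add_comm _ _

end Pool.Agent.W651.LW
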